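import Pool.Agent.Q248.HP.Stm

/-!
# Project HP of helper248: solutions of `x_1^h + ... + x_h^h = 0` modulo `p`
-/

set_option autoImplicit false

namespace Pool.Agent.Q65.HP

open Finset Filter ComplexConjugate

section

variable {p : ℕ} [hp : Fact p.Prime]

/-- nonzero residues -/
def U (p : ℕ) [Fact p.Prime] : Finset (ZMod p) := univ.filter fun x => x ≠ 0

/-- the exponential sum -/
noncomputable def SS (p h : ℕ) [Fact p.Prime] (a : ZMod p) : ℂ :=
  ∑ x ∈ U p, ZMod.stdAddChar (a * x ^ h)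

theorem mem_U (x : ZMod p) : x ∈ U p ↔ x ≠ 0 := by
  unfold U
  rw [mem_filter]
  simp

theorem card_U : (U p).card = p - 1 := by
  have h1 : U p = univ.erase 0 := by
    ext x
    rw [mem_U, mem_erase]
    simp
  rw [h1, card_erase_of_mem (mem_univ _), card_univ, ZMod.card]

theorem orth (s : ZMod p) :
    ∑ a : ZMod p, (ZMod.stdAddChar (a * s) : ℂ) = if s = 0 then (p : ℂ) else 0 := by
  rw [AddChar.sum_mulShift s (ZMod.isPrimitive_stdAddChar p), ZMod.card]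
  split_ifs <;> simp

theorem char_sum {ι : Type} (s : Finset ι) (f : ι → ZMod p) :
    ∏ i ∈ s, (ZMod.stdAddChar (f i) : ℂ) = ZMod.stdAddChar (∑ i ∈ s, f i) := by
  classical
  induction s using Finset.induction_on with
  | empty => simp
  | insert a s ha ih => rw [prod_insert ha, sum_insert ha, AddChar.map_add_eq_mul, ih]

theorem pow_SS (h : ℕ) (a : ZMod p) : SS p h a ^ h =
    ∑ x ∈ Fintype.piFinset fun _ : Fin h => U p, (ZMod.stdAddChar (a * ∑ i, x i ^ h) : ℂ) := by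
  have h1 : SS p h a ^ h = ∏ _i : Fin h, ∑ x ∈ U p, (ZMod.stdAddChar (a * x ^ h) : ℂ) := by
    rw [prod_const, card_univ, Fintype.card_fin]
    rfl
  rw [h1, prod_univ_sum]
  refine sum_congr rfl fun x _ => ?_
  rw [mul_sum, char_sum]

theorem count_eq (h : ℕ) : ∑ a : ZMod p, SS p h a ^ h =
    (p : ℂ) * (((Fintype.piFinset fun _ : Fin h => U p).filter
      fun x => ∑ i, x i ^ h = 0).card : ℂ) := by
  simp only [pow_SS]
  rw [sum_comm]
  simp only [orth]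
  rw [← sum_filter, sum_const, nsmul_eq_mul, mul_comm]

theorem parseval (h : ℕ) : ∑ a : ZMod p, ‖SS p h a‖ ^ 2 =
    (p : ℝ) * (((U p ×ˢ U p).filter fun q => q.1 ^ h = q.2 ^ h).card : ℝ) := by
  have h1 : ∀ a : ZMod p, ((‖SS p h a‖ ^ 2 : ℝ) : ℂ) =
      ∑ q ∈ U p ×ˢ U p, (ZMod.stdAddChar (a * (q.1 ^ h - q.2 ^ h)) : ℂ) := by
    intro a
    rw [← Complex.normSq_eq_norm_sq, ← Complex.mul_conj]
    unfold SS
    rw [map_sum, sum_mul_sum, sum_product]
    refine sum_congr rfl fun x _ => sum_congr rfl fun y _ => ?_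
    rw [← AddChar.map_neg_eq_conj, ← AddChar.map_add_eq_mul]
    congr 1
    ring
  have h2 : ((∑ a : ZMod p, ‖SS p h a‖ ^ 2 : ℝ) : ℂ) =
      (((p : ℝ) * (((U p ×ˢ U p).filter fun q => q.1 ^ h = q.2 ^ h).card : ℝ) : ℝ) : ℂ) := by
    rw [Complex.ofReal_sum]
    simp only [h1]
    rw [sum_comm]
    simp only [orth, sub_eq_zero]
    rw [← sum_filter, sum_const, nsmul_eq_mul]
    push_cast
    ring
  exact_mod_cast h2

theorem roots_le (h : ℕ) (hh : 0 < h) (b : ZMod p) :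
    ((U p).filter fun x => x ^ h = b).card ≤ h := by
  have h1 : ((U p).filter fun x => x ^ h = b) ⊆ (Polynomial.nthRoots h b).toFinset := by
    intro x hx
    rw [mem_filter] at hx
    rw [Multiset.mem_toFinset, Polynomial.mem_nthRoots hh]
    exact hx.2
  exact (card_le_card h1).trans ((Multiset.toFinset_card_le _).trans (Polynomial.card_nthRoots h b))

theorem pairs_le (h : ℕ) (hh : 0 < h) :
    ((U p ×ˢ U p).filter fun q => q.1 ^ h = q.2 ^ h).card ≤ h * (p - 1) := by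
  have h1 : ((U p ×ˢ U p).filter fun q => q.1 ^ h = q.2 ^ h).card =
      ∑ y ∈ U p, ((U p).filter fun x => x ^ h = y ^ h).card := by
    rw [card_filter, sum_product_right]
    refine sum_congr rfl fun y _ => ?_
    rw [card_filter]
  rw [h1]
  refine (sum_le_sum fun y _ => roots_le h hh (y ^ h)).trans (le_of_eq ?_)
  rw [sum_const, card_U, smul_eq_mul, mul_comm]

theorem SS_mul (h : ℕ) (a c : ZMod p) (hc : c ≠ 0) : SS p h (a * c ^ h) = SS p h a := by
  unfold SS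
  refine sum_bij (fun x _ => c * x) ?_ ?_ ?_ ?_
  · intro x hx
    rw [mem_U] at hx ⊢
    exact mul_ne_zero hc hx
  · intro x _ y _ hxy
    exact mul_left_cancel₀ hc hxy
  · intro y hy
    rw [mem_U] at hy
    refine ⟨c⁻¹ * y, (mem_U _).2 (mul_ne_zero (inv_ne_zero hc) hy), ?_⟩
    rw [mul_inv_cancel_left₀ hc]
  · intro x _
    rw [mul_pow]
    congr 1
    ring

theorem SS_le (h : ℕ) (hh : 0 < h) (a : ZMod p) (ha : a ≠ 0) :
    ‖SS p h a‖ ≤ h * √(p : ℝ) := by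
  have hp1 : 1 < p := hp.out.one_lt
  have hpr : (0 : ℝ) < ((p - 1 : ℕ) : ℝ) := by
    have : 0 < p - 1 := by omega
    exact_mod_cast this
  have h1 : ∑ c ∈ U p, ‖SS p h (a * c ^ h)‖ ^ 2 = ((p - 1 : ℕ) : ℝ) * ‖SS p h a‖ ^ 2 := by
    rw [← card_U (p := p), ← nsmul_eq_mul, ← sum_const]
    refine sum_congr rfl fun c hc => ?_
    rw [SS_mul h a c ((mem_U c).1 hc)]
  have h2 : ∑ c ∈ U p, ‖SS p h (a * c ^ h)‖ ^ 2 ≤ (h : ℝ) * ∑ b : ZMod p, ‖SS p h b‖ ^ 2 := by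
    rw [← sum_fiberwise (U p) (fun c => a * c ^ h) (fun c => ‖SS p h (a * c ^ h)‖ ^ 2), mul_sum]
    refine sum_le_sum fun b _ => ?_
    have h3 : ∑ c ∈ (U p).filter (fun c => a * c ^ h = b), ‖SS p h (a * c ^ h)‖ ^ 2 =
        (((U p).filter (fun c => a * c ^ h = b)).card : ℝ) * ‖SS p h b‖ ^ 2 := by
      rw [← nsmul_eq_mul, ← sum_const]
      refine sum_congr rfl fun c hc => ?_
      rw [(mem_filter.1 hc).2]
    rw [h3]
    refine mul_le_mul_of_nonneg_right ?_ (sq_nonneg _)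
    have h4 : (U p).filter (fun c => a * c ^ h = b) = (U p).filter (fun c => c ^ h = a⁻¹ * b) := by
      ext c
      rw [mem_filter, mem_filter, eq_inv_mul_iff_mul_eq₀ ha]
    rw [h4]
    exact_mod_cast roots_le h hh _
  rw [h1, parseval] at h2
  have h5 : ((((U p ×ˢ U p).filter fun q => q.1 ^ h = q.2 ^ h).card : ℕ) : ℝ) ≤
      (h : ℝ) * ((p - 1 : ℕ) : ℝ) := by
    exact_mod_cast pairs_le h hh
  have hp0 : (0 : ℝ) ≤ p := Nat.cast_nonneg p
  have h6 : ((p - 1 : ℕ) : ℝ) * ‖SS p h a‖ ^ 2 ≤ ((p - 1 : ℕ) : ℝ) * ((h : ℝ) ^ 2 * p) := by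
    refine h2.trans ?_
    calc (h : ℝ) * ((p : ℝ) * ((((U p ×ˢ U p).filter fun q => q.1 ^ h = q.2 ^ h).card : ℕ) : ℝ))
        ≤ (h : ℝ) * ((p : ℝ) * ((h : ℝ) * ((p - 1 : ℕ) : ℝ))) :=
          mul_le_mul_of_nonneg_left (mul_le_mul_of_nonneg_left h5 hp0) (Nat.cast_nonneg h)
      _ = ((p - 1 : ℕ) : ℝ) * ((h : ℝ) ^ 2 * p) := by ring
  have h7 : ‖SS p h a‖ ^ 2 ≤ (h : ℝ) ^ 2 * p := le_of_mul_le_mul_left h6 hpr
  refine le_of_sq_le_sq ?_ (by positivity)
  rw [mul_pow, Real.sq_sqrt hp0]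
  exact h7

theorem SS_zero (h : ℕ) : SS p h 0 = ((p - 1 : ℕ) : ℂ) := by
  unfold SS
  simp only [zero_mul, AddChar.map_zero_eq_one, sum_const, card_U, nsmul_eq_mul, mul_one]

theorem count_ge (h : ℕ) (hh : 0 < h) :
    ((p - 1 : ℕ) : ℝ) ^ h - p * (h * √(p : ℝ)) ^ h ≤
      (p : ℝ) * (((Fintype.piFinset fun _ : Fin h => U p).filter
        fun x => ∑ i, x i ^ h = 0).card : ℝ) := by
  have h1 := count_eq (p := p) h
  rw [← add_sum_erase univ (fun a => SS p h a ^ h) (mem_univ (0 : ZMod p)), SS_zero] at h1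
  have h2 : ‖∑ a ∈ univ.erase (0 : ZMod p), SS p h a ^ h‖ ≤ p * (h * √(p : ℝ)) ^ h := by
    refine (norm_sum_le _ _).trans ?_
    have h3 : ∀ a ∈ univ.erase (0 : ZMod p), ‖SS p h a ^ h‖ ≤ (h * √(p : ℝ)) ^ h := by
      intro a ha
      rw [norm_pow]
      exact pow_le_pow_left₀ (norm_nonneg _) (SS_le h hh a (ne_of_mem_erase ha)) h
    refine (sum_le_sum h3).trans ?_
    rw [sum_const, nsmul_eq_mul]
    refine mul_le_mul_of_nonneg_right ?_ (by positivity)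
    have h4 : (univ.erase (0 : ZMod p)).card ≤ p := by
      refine (card_le_card (erase_subset _ _)).trans (le_of_eq ?_)
      rw [card_univ, ZMod.card]
    exact_mod_cast h4
  have h5 : (((p - 1 : ℕ) : ℝ) ^ h : ℝ) - (p : ℝ) * (((Fintype.piFinset fun _ : Fin h => U p).filter
        fun x => ∑ i, x i ^ h = 0).card : ℝ) ≤ ‖∑ a ∈ univ.erase (0 : ZMod p), SS p h a ^ h‖ := by
    have h6 : ∑ a ∈ univ.erase (0 : ZMod p), SS p h a ^ h =
        (((p : ℝ) * (((Fintype.piFinset fun _ : Fin h => U p).filter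
        fun x => ∑ i, x i ^ h = 0).card : ℝ) - ((p - 1 : ℕ) : ℝ) ^ h : ℝ) : ℂ) := by
      rw [Complex.ofReal_sub, Complex.ofReal_mul, Complex.ofReal_pow]
      simp only [Complex.ofReal_natCast]
      rw [← h1]
      ring
    rw [h6, Complex.norm_real, Real.norm_eq_abs, abs_sub_comm]
    exact le_abs_self _
  linarith

end

theorem analytic (h p : ℕ) (hh : 3 ≤ h) (hp : (8 * h ^ h) ^ 2 + 8 * h ≤ p) :
    (3 / 4 : ℝ) * (p : ℝ) ^ h ≤ ((p - 1 : ℕ) : ℝ) ^ h - p * (h * √(p : ℝ)) ^ h := by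
  have hp1 : 1 ≤ p := by nlinarith [Nat.zero_le ((8 * h ^ h) ^ 2)]
  have hpr : (1 : ℝ) ≤ p := by exact_mod_cast hp1
  have hp0 : (0 : ℝ) < p := by linarith
  have hcast : ((p - 1 : ℕ) : ℝ) = (p : ℝ) - 1 := by
    rw [Nat.cast_sub hp1, Nat.cast_one]
  have h8 : (8 : ℝ) * h ≤ p := by
    have : 8 * h ≤ p := by nlinarith [Nat.zero_le ((8 * h ^ h) ^ 2)]
    exact_mod_cast this
  -- the main term
  have hA : (7 / 8 : ℝ) * (p : ℝ) ^ h ≤ ((p - 1 : ℕ) : ℝ) ^ h := by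
    rw [hcast]
    have h1 := one_add_mul_le_pow (a := -(1 / (p : ℝ))) (by
      have : 1 / (p : ℝ) ≤ 1 := by
        rw [div_le_one hp0]
        exact hpr
      linarith) h
    have h2 : (7 / 8 : ℝ) ≤ 1 + h * -(1 / (p : ℝ)) := by
      have : (h : ℝ) * (1 / p) ≤ 1 / 8 := by
        rw [mul_one_div, div_le_div_iff₀ hp0 (by norm_num)]
        linarith
      linarith
    have h3 : ((p : ℝ) - 1) ^ h = (1 + -(1 / (p : ℝ))) ^ h * (p : ℝ) ^ h := by
      rw [← mul_pow]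
      congr 1
      field_simp
      ring
    rw [h3]
    exact mul_le_mul_of_nonneg_right (h2.trans h1) (by positivity)
  -- the error term
  have hB : (p : ℝ) * (h * √(p : ℝ)) ^ h ≤ (1 / 8 : ℝ) * (p : ℝ) ^ h := by
    set q := √(p : ℝ) with hq
    have hq2 : q ^ 2 = p := Real.sq_sqrt hp0.le
    have hq1 : (8 : ℝ) * (h : ℝ) ^ h ≤ q := by
      refine Real.le_sqrt_of_sq_le ?_
      have : (8 * h ^ h) ^ 2 ≤ p := by omega
      exact_mod_cast this
    have hqq : (1 : ℝ) ≤ q := by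
      rw [hq]
      exact Real.one_le_sqrt.2 hpr
    have h1 : q ≤ q ^ (h - 2) := le_self_pow₀ hqq (by omega)
    have h2 : (8 : ℝ) * (h : ℝ) ^ h ≤ q ^ (h - 2) := hq1.trans h1
    have h3 : (p : ℝ) ^ h = q ^ (h - 2) * (q ^ 2 * q ^ h) := by
      rw [← hq2, ← pow_mul, ← pow_add, ← pow_add]
      congr 1
      omega
    rw [h3, mul_pow, ← hq2]
    have h4 : 0 ≤ q ^ 2 * q ^ h := by positivity
    nlinarith [mul_le_mul_of_nonneg_right h2 h4]
  linarith

end Pool.Agent.Q65.HP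

namespace Pool.Agent.Q248.HP

open Finset Filter

theorem t_CN1 : S_CN1 := by
  intro h hh
  refine ⟨(8 * h ^ h) ^ 2 + 8 * h, fun p hp hP => ?_⟩
  have : Fact p.Prime := ⟨hp⟩
  have hp0 : (0 : ℝ) < p := by exact_mod_cast hp.pos
  have h1 := Pool.Agent.Q65.HP.count_ge (p := p) h (by omega)
  have h2 := Pool.Agent.Q65.HP.analytic h p hh hP
  have h3 : Nat.card {x : Fin h → ZMod p // (∀ i, x i ≠ 0) ∧ ∑ i, x i ^ h = 0} =
      ((Fintype.piFinset fun _ : Fin h => Pool.Agent.Q65.HP.U p).filter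
        fun x => ∑ i, x i ^ h = 0).card := by
    rw [Nat.card_eq_fintype_card, Fintype.card_subtype]
    congr 1
    ext x
    rw [mem_filter, mem_filter, Fintype.mem_piFinset]
    simp only [Pool.Agent.Q65.HP.mem_U, mem_univ, true_and]
  rw [h3]
  have h4 : (p : ℝ) ^ h = p * (p : ℝ) ^ (h - 1) := by
    rw [← pow_succ']
    congr 1
    omega
  rw [h4] at h2
  have h5 := h2.trans h1
  have h6 : (p : ℝ) * ((3 / 4 : ℝ) * (p : ℝ) ^ (h - 1)) ≤
      (p : ℝ) * (((Fintype.piFinset fun _ : Fin h => Pool.Agent.Q65.HP.U p).filter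
        fun x => ∑ i, x i ^ h = 0).card : ℝ) := by
    linarith
  exact le_of_mul_le_mul_left h6 hp0

end Pool.Agent.Q248.HP

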