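import Pool.Agent.Q248.HP.Stm

/-!
# Project HP of helper248: sets near finitely many sequences `α n^h + β`
-/

set_option autoImplicit false

namespace Pool.Agent.Q65.HP

open Finset Filter Topology Pool.Agent.Q248.HP

theorem rep_fin (A : Set ℕ) (h n : ℕ) :
    {s : Multiset ℕ | Multiset.card s = h ∧ (∀ a ∈ s, a ∈ A) ∧ s.sum = n}.Finite := by
  refine (Set.finite_Iic (h • Multiset.range (n + 1))).subset ?_
  rintro s ⟨h1, -, h3⟩
  rw [Set.mem_Iic, Multiset.le_iff_count]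
  intro a
  rw [Multiset.count_nsmul]
  by_cases ha : a ∈ s
  · have h4 : a ≤ n := h3 ▸ Multiset.single_le_sum (fun _ _ => Nat.zero_le _) a ha
    have h5 : Multiset.count a (Multiset.range (n + 1)) = 1 :=
      Multiset.count_eq_one_of_mem (Multiset.nodup_range _) (Multiset.mem_range.2 (by omega))
    rw [h5, mul_one, ← h1]
    exact Multiset.count_le_card _ _
  · rw [Multiset.count_eq_zero_of_notMem ha]
    exact Nat.zero_le _

theorem fiber_le (h : ℕ) (E : Finset (Fin h → ℕ)) (A : Set ℕ) (n : ℕ)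
    (hA : ∀ y ∈ E, ∀ i, y i ∈ A) (hs : ∀ y ∈ E, ∑ i, y i = n) :
    E.card ≤ h.factorial * rep A h n := by
  classical
  have h1 := Finset.card_le_mul_card_image (f := fun y : Fin h → ℕ =>
    ((List.ofFn y : List ℕ) : Multiset ℕ)) E h.factorial (by
      intro b hb
      obtain ⟨y₀, _, hy₀⟩ := mem_image.1 hb
      have h2 : (List.permutations (List.ofFn y₀)).toFinset.card ≤ h.factorial := by
        refine (List.toFinset_card_le _).trans (le_of_eq ?_)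
        rw [List.length_permutations, List.length_ofFn]
      refine le_trans (card_le_card_of_injOn (fun y => List.ofFn y) ?_ ?_) h2
      · intro y hy
        rw [mem_coe, mem_filter] at hy
        rw [mem_coe, List.mem_toFinset, List.mem_permutations, ← Multiset.coe_eq_coe]
        exact hy.2.trans hy₀.symm
      · intro y _ y' _ hyy
        exact List.ofFn_injective hyy)
  refine h1.trans (Nat.mul_le_mul_left _ ?_)
  unfold rep
  rw [← Set.ncard_coe_finset]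
  refine Set.ncard_le_ncard ?_ (rep_fin A h n)
  intro s hs'
  rw [mem_coe, mem_image] at hs'
  obtain ⟨y, hy, rfl⟩ := hs'
  refine ⟨?_, ?_, ?_⟩
  · rw [Multiset.coe_card, List.length_ofFn]
  · intro a ha
    rw [Multiset.mem_coe, List.mem_ofFn] at ha
    obtain ⟨i, rfl⟩ := ha
    exact hA y hy i
  · rw [Multiset.sum_coe, List.sum_ofFn]
    exact hs y hy

theorem transfer (A : Set ℕ) (α β H : ℝ) (h x : ℕ) (hH : 0 ≤ H) (S : Finset ℕ) (g : ℕ → ℕ)
    (hinj : Set.InjOn g S) (hgA : ∀ n ∈ S, g n ∈ A) (hgx : ∀ n ∈ S, g n ≤ x)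
    (hg : ∀ n ∈ S, |(g n : ℝ) - (α * n ^ h + β)| ≤ H) (N : ℕ) (b : ℝ) (hb : 0 < b)
    (hN : b ≤ (tup S h N : ℝ)) :
    ∃ s : ℕ, s ≤ h * x ∧ b / (2 * h * H + 1) ≤ h.factorial * (rep A h s : ℝ) := by
  classical
  set E := (Fintype.piFinset fun _ : Fin h => S).filter (fun z => ∑ i, z i ^ h = N) with hE
  have hEc : b ≤ (E.card : ℝ) := hN
  have hmemE : ∀ z ∈ E, (∀ i, z i ∈ S) ∧ ∑ i, z i ^ h = N := by
    intro z hz
    rw [hE, mem_filter, Fintype.mem_piFinset] at hz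
    exact hz
  have hwin : ∀ z ∈ E, α * N + h * β - h * H ≤ ((∑ i, g (z i) : ℕ) : ℝ) ∧
      ((∑ i, g (z i) : ℕ) : ℝ) ≤ α * N + h * β + h * H := by
    intro z hz
    obtain ⟨h1, h2⟩ := hmemE z hz
    have h3 : (N : ℝ) = ∑ i, (z i : ℝ) ^ h := by
      rw [← h2]
      push_cast
      rfl
    have h4 : |((∑ i, g (z i) : ℕ) : ℝ) - (α * N + h * β)| ≤ h * H := by
      have h5 : ((∑ i, g (z i) : ℕ) : ℝ) - (α * N + h * β) =
          ∑ i, ((g (z i) : ℝ) - (α * (z i : ℝ) ^ h + β)) := by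
        rw [h3, sum_sub_distrib, sum_add_distrib, ← mul_sum, sum_const, card_univ,
          Fintype.card_fin, nsmul_eq_mul]
        push_cast
        ring
      rw [h5]
      refine (abs_sum_le_sum_abs _ _).trans ((sum_le_sum fun i _ => hg _ (h1 i)).trans
        (le_of_eq ?_))
      rw [sum_const, card_univ, Fintype.card_fin, nsmul_eq_mul]
    have h6 := abs_le.1 h4
    constructor <;> linarith [h6.1, h6.2]
  set T := Finset.Icc ⌈α * N + h * β - h * H⌉₊ ⌊α * N + h * β + h * H⌋₊ with hT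
  have hmaps : ∀ z ∈ E, ∑ i, g (z i) ∈ T := by
    intro z hz
    obtain ⟨h1, h2⟩ := hwin z hz
    rw [hT, Finset.mem_Icc]
    exact ⟨Nat.ceil_le.mpr h1, Nat.le_floor h2⟩
  have hEne : E.Nonempty := by
    rw [← Finset.card_pos]
    have : (0 : ℝ) < E.card := lt_of_lt_of_le hb hEc
    exact_mod_cast this
  obtain ⟨z0, hz0⟩ := hEne
  have hTcard : (T.card : ℝ) ≤ 2 * h * H + 1 := by
    have h0 := hmaps z0 hz0
    rw [hT, Finset.mem_Icc] at h0
    have h1 : ⌈α * N + h * β - h * H⌉₊ ≤ ⌊α * N + h * β + h * H⌋₊ := h0.1.trans h0.2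
    rw [hT, Nat.card_Icc, Nat.cast_sub (by omega)]
    have h2 := Nat.le_ceil (α * N + h * β - h * H)
    have h3 : ((⌊α * N + h * β + h * H⌋₊ : ℕ) : ℝ) ≤ α * N + h * β + h * H := by
      refine Nat.floor_le ?_
      have := (hwin z0 hz0).2
      exact (Nat.cast_nonneg _).trans this
    push_cast
    linarith
  have hden : 0 < 2 * h * H + 1 := by positivity
  obtain ⟨s, hs, hs'⟩ := Finset.exists_le_card_fiber_of_nsmul_le_card_of_maps_to
    (b := b / (2 * h * H + 1)) hmaps ⟨_, hmaps z0 hz0⟩ (by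
      rw [nsmul_eq_mul]
      refine le_trans ?_ hEc
      calc (T.card : ℝ) * (b / (2 * h * H + 1)) ≤ (2 * h * H + 1) * (b / (2 * h * H + 1)) :=
            mul_le_mul_of_nonneg_right hTcard (by positivity)
        _ = b := by field_simp)
  refine ⟨s, ?_, ?_⟩
  · have h1 : (0 : ℝ) < ((E.filter fun z => ∑ i, g (z i) = s).card : ℝ) :=
      lt_of_lt_of_le (by positivity) hs'
    have h2 : 0 < (E.filter fun z => ∑ i, g (z i) = s).card := by exact_mod_cast h1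
    obtain ⟨z, hz⟩ := Finset.card_pos.mp h2
    rw [Finset.mem_filter] at hz
    rw [← hz.2]
    refine (sum_le_sum fun i _ => hgx _ ((hmemE z hz.1).1 i)).trans (le_of_eq ?_)
    rw [sum_const, card_univ, Fintype.card_fin, smul_eq_mul]
  · refine hs'.trans ?_
    have h1 : (E.filter fun z => ∑ i, g (z i) = s).card =
        ((E.filter fun z => ∑ i, g (z i) = s).image fun z i => g (z i)).card := by
      refine (card_image_of_injOn ?_).symm
      intro z hz z' hz' hzz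
      rw [mem_coe, mem_filter] at hz hz'
      funext i
      exact hinj ((hmemE z hz.1).1 i) ((hmemE z' hz'.1).1 i) (congrFun hzz i)
    have h2 := fiber_le h ((E.filter fun z => ∑ i, g (z i) = s).image fun z i => g (z i)) A s
      (by
        intro y hy i
        obtain ⟨z, hz, rfl⟩ := mem_image.1 hy
        exact hgA _ ((hmemE z (mem_filter.1 hz).1).1 i))
      (by
        intro y hy
        obtain ⟨z, hz, rfl⟩ := mem_image.1 hy
        exact (mem_filter.1 hz).2)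
    rw [h1]
    exact_mod_cast h2

theorem extract (h : ℕ) (hh : 3 ≤ h) (α β H : ℝ) (x : ℕ) (y : ℝ) (hy : y ^ h = x) (hy0 : 0 < y)
    (hα : H⁻¹ ≤ α) (hH : 3 ≤ H) (hHx : 2 * H ≤ x) (hyH : 2 * H ^ 4 ≤ y) (B : Finset ℕ)
    (hBx : ∀ b ∈ B, b ≤ x) (hB : ∀ b ∈ B, ∃ n : ℕ, |(b : ℝ) - (α * n ^ h + β)| ≤ H)
    (hcard : y / H ^ 2 ≤ (B.card : ℝ)) :
    ∃ (S : Finset ℕ) (g : ℕ → ℕ), (∀ n ∈ S, g n ∈ B) ∧ Set.InjOn g S ∧
      (∀ n ∈ S, |(g n : ℝ) - (α * n ^ h + β)| ≤ H) ∧ y / H ^ 4 ≤ (S.card : ℝ) ∧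
      ∀ n ∈ S, (n : ℝ) ≤ 4 * H ^ 5 * y := by
  classical
  have hH0 : 0 < H := by linarith
  have hα0 : 0 < α := lt_of_lt_of_le (by positivity) hα
  have hHα : 1 ≤ H * α := by
    have := mul_le_mul_of_nonneg_left hα hH0.le
    rwa [mul_inv_cancel₀ hH0.ne'] at this
  have hex : ∀ b : ℕ, ∃ n : ℕ, b ∈ B → |(b : ℝ) - (α * n ^ h + β)| ≤ H := by
    intro b
    by_cases hb : b ∈ B
    · obtain ⟨n, hn⟩ := hB b hb
      exact ⟨n, fun _ => hn⟩
    · exact ⟨0, fun h' => absurd h' hb⟩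
  choose f hf using hex
  have hsec : ∀ n : ℕ, ∃ a : ℕ, n ∈ B.image f → a ∈ B ∧ f a = n := by
    intro n
    by_cases hn : n ∈ B.image f
    · rw [Finset.mem_image] at hn
      obtain ⟨a, ha, han⟩ := hn
      exact ⟨a, fun _ => ⟨ha, han⟩⟩
    · exact ⟨0, fun h' => absurd h' hn⟩
  choose g hg using hsec
  have hgB : ∀ n ∈ B.image f, g n ∈ B := fun n hn => (hg n hn).1
  have hgf : ∀ n ∈ B.image f, |(g n : ℝ) - (α * n ^ h + β)| ≤ H := by
    intro n hn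
    have h1 := hf _ (hg n hn).1
    rwa [(hg n hn).2] at h1
  -- the number of the n
  have hfib : ∀ n ∈ B.image f, (B.filter (fun a => f a = n)).card ≤ ⌊2 * H + 1⌋₊ := by
    intro n hn
    have h2 : B.filter (fun a => f a = n) ⊆
        Finset.Icc ⌈α * n ^ h + β - H⌉₊ ⌊α * n ^ h + β + H⌋₊ := by
      intro a ha
      rw [Finset.mem_filter] at ha
      have h3 := abs_le.mp (hf a ha.1)
      rw [ha.2] at h3
      rw [Finset.mem_Icc]
      exact ⟨Nat.ceil_le.mpr (by linarith [h3.1]), Nat.le_floor (by linarith [h3.2])⟩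
    refine (Finset.card_le_card h2).trans (Nat.le_floor ?_)
    rw [Nat.card_Icc]
    have hpos : 0 ≤ α * (n : ℝ) ^ h + β + H := by
      have h3 := abs_le.mp (hgf n hn)
      have h5 : (0 : ℝ) ≤ ((g n : ℕ) : ℝ) := Nat.cast_nonneg _
      linarith [h3.2]
    by_cases hle : ⌈α * (n : ℝ) ^ h + β - H⌉₊ ≤ ⌊α * (n : ℝ) ^ h + β + H⌋₊ + 1
    · rw [Nat.cast_sub hle]
      have h3 := Nat.le_ceil (α * (n : ℝ) ^ h + β - H)
      have h4 : ((⌊α * (n : ℝ) ^ h + β + H⌋₊ : ℕ) : ℝ) ≤ α * n ^ h + β + H :=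
        Nat.floor_le hpos
      push_cast
      linarith
    · rw [Nat.sub_eq_zero_of_le (by omega)]
      push_cast
      linarith
  have hScard : y / H ^ 4 ≤ ((B.image f).card : ℝ) := by
    have h2 := Finset.card_le_mul_card_image B ⌊2 * H + 1⌋₊ hfib
    have h3 : (B.card : ℝ) ≤ (⌊2 * H + 1⌋₊ : ℕ) * ((B.image f).card : ℝ) := by exact_mod_cast h2
    have h4 : ((⌊2 * H + 1⌋₊ : ℕ) : ℝ) ≤ H ^ 2 := by
      refine (Nat.floor_le (by linarith)).trans ?_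
      nlinarith
    have h5 : y / H ^ 2 ≤ H ^ 2 * ((B.image f).card : ℝ) :=
      hcard.trans (h3.trans (mul_le_mul_of_nonneg_right h4 (Nat.cast_nonneg _)))
    rw [div_le_iff₀ (by positivity)] at h5 ⊢
    calc y ≤ H ^ 2 * ((B.image f).card : ℝ) * H ^ 2 := h5
      _ = ((B.image f).card : ℝ) * H ^ 4 := by ring
  refine ⟨B.image f, g, hgB, ?_, hgf, hScard, ?_⟩
  · intro n hn n' hn' hnn
    rw [← (hg n hn).2, ← (hg n' hn').2, hnn]
  -- the bound of the n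
  have hc2 : (2 : ℝ) ≤ y / H ^ 4 := by
    rw [le_div_iff₀ (by positivity)]
    exact hyH
  have hne : (B.image f).Nonempty := by
    rw [← card_pos]
    have : (0 : ℝ) < ((B.image f).card : ℝ) := by linarith
    exact_mod_cast this
  set n₀ := (B.image f).min' hne with hn₀
  set n₁ := (B.image f).max' hne with hn₁
  have hn01 : n₀ ≤ n₁ := Finset.min'_le_max' _ _
  have hm0 : n₀ ∈ B.image f := Finset.min'_mem _ _
  have hm1 : n₁ ∈ B.image f := Finset.max'_mem _ _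
  have hsub : B.image f ⊆ Icc n₀ n₁ := by
    intro n hn
    rw [mem_Icc]
    exact ⟨Finset.min'_le _ _ hn, Finset.le_max' _ _ hn⟩
  have hcc : ((B.image f).card : ℝ) ≤ (n₁ : ℝ) - n₀ + 1 := by
    have h1 := card_le_card hsub
    rw [Nat.card_Icc] at h1
    have h2 : ((B.image f).card : ℝ) ≤ ((n₁ + 1 - n₀ : ℕ) : ℝ) := by exact_mod_cast h1
    rw [Nat.cast_sub (by omega)] at h2
    push_cast at h2
    linarith
  have hm : y / H ^ 4 / 2 ≤ (n₁ : ℝ) - n₀ := by linarith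
  have hx0 : (0 : ℝ) ≤ x := Nat.cast_nonneg x
  have hd : α * ((n₁ : ℝ) ^ h - (n₀ : ℝ) ^ h) ≤ 2 * x := by
    have h1 := abs_le.1 (hgf n₁ hm1)
    have h2 := abs_le.1 (hgf n₀ hm0)
    have h3 : (g n₁ : ℝ) ≤ x := by exact_mod_cast hBx _ (hgB n₁ hm1)
    have h4 : (0 : ℝ) ≤ (g n₀ : ℝ) := Nat.cast_nonneg _
    nlinarith [h1.1, h1.2, h2.1, h2.2]
  have hpw : (n₁ : ℝ) ^ (h - 1) * ((n₁ : ℝ) - n₀) ≤ (n₁ : ℝ) ^ h - (n₀ : ℝ) ^ h := by
    have e1 : h = h - 1 + 1 := by omega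
    have h1 : (n₁ : ℝ) ^ h = (n₁ : ℝ) ^ (h - 1) * n₁ := by
      rw [← pow_succ, ← e1]
    have h2 : (n₀ : ℝ) ^ h = (n₀ : ℝ) ^ (h - 1) * n₀ := by
      rw [← pow_succ, ← e1]
    have h3 : (n₀ : ℝ) ^ (h - 1) ≤ (n₁ : ℝ) ^ (h - 1) :=
      pow_le_pow_left₀ (Nat.cast_nonneg _) (by exact_mod_cast hn01) _
    rw [h1, h2]
    nlinarith [mul_le_mul_of_nonneg_right h3 (Nat.cast_nonneg (α := ℝ) n₀)]
  have hmain : (n₁ : ℝ) ^ (h - 1) ≤ (4 * H ^ 5 * y) ^ (h - 1) := by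
    have h0 : (0 : ℝ) ≤ (n₁ : ℝ) ^ (h - 1) := by positivity
    have h1 : (n₁ : ℝ) ^ (h - 1) * (y / H ^ 4 / 2) ≤ (n₁ : ℝ) ^ h - (n₀ : ℝ) ^ h :=
      (mul_le_mul_of_nonneg_left hm h0).trans hpw
    have hdn : 0 ≤ (n₁ : ℝ) ^ h - (n₀ : ℝ) ^ h := le_trans (by positivity) h1
    have h2 : (n₁ : ℝ) ^ h - (n₀ : ℝ) ^ h ≤ H * (2 * x) := by
      calc (n₁ : ℝ) ^ h - (n₀ : ℝ) ^ h ≤ (H * α) * ((n₁ : ℝ) ^ h - (n₀ : ℝ) ^ h) := by
            nlinarith
        _ = H * (α * ((n₁ : ℝ) ^ h - (n₀ : ℝ) ^ h)) := by ring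
        _ ≤ H * (2 * x) := mul_le_mul_of_nonneg_left hd hH0.le
    have e1 : y ^ h = y ^ (h - 1) * y := by
      rw [← pow_succ]
      congr 1
      omega
    have h3 : (n₁ : ℝ) ^ (h - 1) * (y / H ^ 4 / 2) ≤ 4 * H ^ 5 * y ^ (h - 1) * (y / H ^ 4 / 2) := by
      refine (h1.trans h2).trans (le_of_eq ?_)
      rw [← hy, e1]
      field_simp
      ring
    have h4 : (n₁ : ℝ) ^ (h - 1) ≤ 4 * H ^ 5 * y ^ (h - 1) :=
      le_of_mul_le_mul_right h3 (by positivity)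
    refine h4.trans ?_
    rw [mul_pow]
    refine mul_le_mul_of_nonneg_right ?_ (by positivity)
    refine le_self_pow₀ ?_ (by omega)
    have : 1 ≤ H ^ 5 := one_le_pow₀ (by linarith)
    linarith
  have hfin : (n₁ : ℝ) ≤ 4 * H ^ 5 * y :=
    le_of_pow_le_pow_left₀ (by omega) (by positivity) hmain
  intro n hn
  have h1 : (n : ℝ) ≤ n₁ := by exact_mod_cast Finset.le_max' _ _ hn
  exact h1.trans hfin

theorem pigeon (A : Set ℕ) (h x : ℕ) (y H : ℝ) (hy : 0 < y) (hH : 0 < H)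
    (hP : PowerLike A h x H) (hc : y / H ≤ ({a : ℕ | a ∈ A ∧ a ≤ x}.ncard : ℝ)) :
    ∃ (α β : ℝ) (B : Finset ℕ), H⁻¹ ≤ α ∧ (∀ b ∈ B, b ∈ A) ∧ (∀ b ∈ B, b ≤ x) ∧
      (∀ b ∈ B, ∃ n : ℕ, |(b : ℝ) - (α * n ^ h + β)| ≤ H) ∧ y / H ^ 2 ≤ (B.card : ℝ) := by
  classical
  obtain ⟨F, hF1, hF2, hF3⟩ := hP
  have hfin : ∀ f : ℝ × ℝ, {a : ℕ | a ∈ A ∧ a ≤ x ∧
      ∃ n : ℕ, |(a : ℝ) - (f.1 * n ^ h + f.2)| ≤ H}.Finite := fun f =>
    (Set.finite_Iic x).subset fun a ha => ha.2.1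
  by_contra hcon
  have hcon' : ∀ f ∈ F, (((hfin f).toFinset.card : ℕ) : ℝ) < y / H ^ 2 := by
    intro f hf
    by_contra hlt
    refine hcon ⟨f.1, f.2, (hfin f).toFinset, hF2 f hf, ?_, ?_, ?_, not_lt.1 hlt⟩
    · intro b hb
      exact ((Set.Finite.mem_toFinset _).1 hb).1
    · intro b hb
      exact ((Set.Finite.mem_toFinset _).1 hb).2.1
    · intro b hb
      exact ((Set.Finite.mem_toFinset _).1 hb).2.2
  have hpos : 0 < y / H := by positivity
  have h6 : {a : ℕ | a ∈ A ∧ a ≤ x} ⊆ (F.biUnion fun f => (hfin f).toFinset : Finset ℕ) := by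
    rintro a ⟨ha, hax⟩
    obtain ⟨f, hf, h8⟩ := hF3 a ha hax
    rw [Finset.mem_coe, Finset.mem_biUnion]
    exact ⟨f, hf, (Set.Finite.mem_toFinset _).mpr ⟨ha, hax, h8⟩⟩
  have h5 : ({a : ℕ | a ∈ A ∧ a ≤ x}.ncard : ℝ) ≤ ∑ f ∈ F, (((hfin f).toFinset.card : ℕ) : ℝ) := by
    have h9 : {a : ℕ | a ∈ A ∧ a ≤ x}.ncard ≤ ∑ f ∈ F, (hfin f).toFinset.card := by
      refine (Set.ncard_le_ncard h6 (Finset.finite_toSet _)).trans ?_
      rw [Set.ncard_coe_finset]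
      exact Finset.card_biUnion_le
    exact_mod_cast h9
  have hFne : F.Nonempty := by
    rw [Finset.nonempty_iff_ne_empty]
    rintro rfl
    rw [sum_empty] at h5
    linarith
  have h7 := Finset.sum_lt_sum_of_nonempty hFne hcon'
  rw [Finset.sum_const, nsmul_eq_mul] at h7
  have h8 : (F.card : ℝ) * (y / H ^ 2) ≤ y / H := by
    calc (F.card : ℝ) * (y / H ^ 2) ≤ H * (y / H ^ 2) :=
          mul_le_mul_of_nonneg_right hF1 (by positivity)
      _ = y / H := by field_simp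
  linarith

end Pool.Agent.Q65.HP
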