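import Pool.Agent.Q65.HP.Seq

/-!
# Project HP of helper248: sets near finitely many sequences `α n^h + β`, the end
-/

set_option autoImplicit false

namespace Pool.Agent.Q65.HP

open Finset Filter Topology Pool.Agent.Q248.HP

theorem tend_ll : Tendsto (fun x : ℕ => Real.log (Real.log (x : ℝ))) atTop atTop :=
  Real.tendsto_log_atTop.comp (Real.tendsto_log_atTop.comp tendsto_natCast_atTop_atTop)

theorem tend_G (c : ℝ) (hc : 0 < c) : Tendsto (fun x : ℕ => G c x) atTop atTop :=
  (tendsto_rpow_atTop hc).comp tend_ll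

theorem G_small (c r : ℝ) (hc : 0 < c) (hr : 0 < r) :
    ∀ᶠ x : ℕ in atTop, 2 * G c x ^ 20 ≤ (x : ℝ) ^ r := by
  have h1 := (isLittleO_log_rpow_rpow_atTop (s := r) (20 * c) hr).def (c := 1 / 2) (by norm_num)
  have h2 := tendsto_natCast_atTop_atTop.eventually h1
  filter_upwards [h2, tend_ll.eventually (eventually_ge_atTop 0),
    eventually_ge_atTop 3] with x hx hx1 hx2
  have hx3 : (3 : ℝ) ≤ x := by exact_mod_cast hx2
  have hlx : 0 < Real.log x := Real.log_pos (by linarith)
  have hle : Real.log (Real.log x) ≤ Real.log x := by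
    have := Real.log_le_sub_one_of_pos hlx
    linarith
  have h3 : G c x ≤ Real.log x ^ c := Real.rpow_le_rpow hx1 hle hc.le
  have h4 : G c x ^ 20 ≤ Real.log x ^ (20 * c) := by
    have h5 : (Real.log x ^ c) ^ 20 = Real.log x ^ (20 * c) := by
      rw [← Real.rpow_natCast, ← Real.rpow_mul hlx.le]
      congr 1
      push_cast
      ring
    rw [← h5]
    exact pow_le_pow_left₀ (Real.rpow_nonneg hx1 _) h3 20
  rw [Real.norm_eq_abs, Real.norm_eq_abs, abs_of_nonneg (Real.rpow_nonneg hlx.le _),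
    abs_of_nonneg (by positivity)] at hx
  linarith

theorem G_big (h : ℕ) (hh : 3 ≤ h) (c₀ : ℝ) (hc₀ : 0 < c₀) : ∀ᶠ x : ℕ in atTop, ∀ X : ℕ,
    (x : ℝ) ^ (1 / h : ℝ) ≤ X → G (c₀ / 200) x ^ 100 ≤ G c₀ X := by
  filter_upwards [tend_ll.eventually (eventually_ge_atTop (max 4 (2 * Real.log h))),
    eventually_ge_atTop 3] with x hx hx2 X hX
  have hx3 : (3 : ℝ) ≤ x := by exact_mod_cast hx2
  have hlx : 0 < Real.log x := Real.log_pos (by linarith)
  have hhr : (0 : ℝ) < h := by exact_mod_cast (by omega : 0 < h)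
  set L := Real.log (Real.log x) with hL
  have hL4 : 4 ≤ L := (le_max_left _ _).trans hx
  have hLh : 2 * Real.log h ≤ L := (le_max_right _ _).trans hx
  have hlX : 1 / h * Real.log x ≤ Real.log X := by
    rw [← Real.log_rpow (by linarith)]
    exact Real.log_le_log (by positivity) hX
  have h1 : L / 2 ≤ Real.log (Real.log X) := by
    have h2 : Real.log (1 / h * Real.log x) ≤ Real.log (Real.log X) :=
      Real.log_le_log (by positivity) hlX
    rw [Real.log_mul (by positivity) hlx.ne', one_div, Real.log_inv] at h2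
    linarith
  have h3 : √L ≤ Real.log (Real.log X) := by
    refine le_trans ?_ h1
    rw [Real.sqrt_le_left (by linarith)]
    nlinarith
  have h4 : G (c₀ / 200) x ^ 100 = √L ^ c₀ := by
    unfold G
    rw [← Real.rpow_natCast, ← Real.rpow_mul (by linarith), Real.sqrt_eq_rpow,
      ← Real.rpow_mul (by linarith)]
    congr 1
    push_cast
    ring
  rw [h4]
  exact Real.rpow_le_rpow (Real.sqrt_nonneg _) h3 hc₀.le

end Pool.Agent.Q65.HP

namespace Pool.Agent.Q248.HP

open Finset Filter Topology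

theorem t_SEQ (hI : S_INT) : S_SEQ := by
  intro h hh
  obtain ⟨c₀, hc₀, hINT⟩ := hI h hh
  obtain ⟨X₀, hX₀⟩ := eventually_atTop.1 hINT
  have hhr : (0 : ℝ) < h := by exact_mod_cast (by omega : 0 < h)
  have hr : (0 : ℝ) < 1 / h := by positivity
  have hy₀ : Tendsto (fun x : ℕ => (x : ℝ) ^ (1 / h : ℝ)) atTop atTop :=
    (tendsto_rpow_atTop hr).comp tendsto_natCast_atTop_atTop
  refine ⟨c₀ / 200, by positivity, ?_⟩
  filter_upwards [Pool.Agent.Q65.HP.G_small (c₀ / 200) (1 / h) (by positivity) hr,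
    Pool.Agent.Q65.HP.G_big h hh c₀ hc₀,
    (Pool.Agent.Q65.HP.tend_G (c₀ / 200) (by positivity)).eventually
      (eventually_ge_atTop (max 3 ((2 * h + 1) * h.factorial : ℝ))),
    hy₀.eventually (eventually_ge_atTop (X₀ : ℝ)),
    eventually_ge_atTop 1] with x hx1 hx2 hx3 hx4 hx5 A hP hc
  set H := G (c₀ / 200) x with hH
  set y := (x : ℝ) ^ (1 / h : ℝ) with hy
  have hx0 : (0 : ℝ) < x := by exact_mod_cast hx5
  have hH3 : 3 ≤ H := (le_max_left _ _).trans hx3
  have hHf : (2 * h + 1) * h.factorial ≤ H := (le_max_right _ _).trans hx3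
  have hH0 : 0 < H := by linarith
  have hy0 : 0 < y := by positivity
  have hyh : y ^ h = x := by
    rw [hy, ← Real.rpow_natCast, ← Real.rpow_mul hx0.le, one_div, inv_mul_cancel₀ hhr.ne',
      Real.rpow_one]
  have hpw : ∀ k : ℕ, 1 ≤ H ^ k := fun k => one_le_pow₀ (by linarith)
  have hH4 : 2 * H ^ 4 ≤ y := by
    refine le_trans (mul_le_mul_of_nonneg_left ?_ (by norm_num)) hx1
    exact pow_le_pow_right₀ (by linarith) (by norm_num)
  have hH1 : H ≤ H ^ 4 := le_self_pow₀ (by linarith) (by norm_num)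
  have hy1 : 1 ≤ y := by linarith
  have hHx : 2 * H ≤ x := by
    have h1 : y ≤ y ^ h := le_self_pow₀ hy1 (by omega)
    rw [hyh] at h1
    linarith
  obtain ⟨α, β, B, hα, hBA, hBx, hB, hBc⟩ := Pool.Agent.Q65.HP.pigeon A h x y H hy0 hH0 hP hc
  obtain ⟨S, g, hgB, hinj, hg, hSc, hSb⟩ := Pool.Agent.Q65.HP.extract h hh α β H x y hyh hy0 hα
    hH3 hHx hH4 B hBx hB hBc
  set X := ⌈y * H ^ 20⌉₊ with hX
  have hXle : y * H ^ 20 ≤ X := Nat.le_ceil _
  have hyX : y ≤ X := le_trans (le_mul_of_one_le_right hy0.le (hpw 20)) hXle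
  have hXX₀ : X₀ ≤ X := by
    have : (X₀ : ℝ) ≤ X := hx4.trans hyX
    exact_mod_cast this
  have hGX := hx2 X hyX
  have hGpos : 0 < G c₀ X := lt_of_lt_of_le (by positivity) hGX
  have hSX : S ⊆ range X := by
    intro n hn
    rw [mem_range]
    have h1 : (n : ℝ) < X := by
      refine lt_of_lt_of_le (lt_of_le_of_lt (hSb n hn) ?_) hXle
      have h2 : 4 * H ^ 5 < H ^ 20 := by
        have h3 : H ^ 20 = H ^ 15 * H ^ 5 := by ring
        have h4 : 4 < H ^ 15 := by
          have : (3 : ℝ) ^ 15 ≤ H ^ 15 := pow_le_pow_left₀ (by norm_num) hH3 15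
          norm_num at this
          linarith
        rw [h3]
        exact mul_lt_mul_of_pos_right h4 (by positivity)
      calc 4 * H ^ 5 * y < H ^ 20 * y := mul_lt_mul_of_pos_right h2 hy0
        _ = y * H ^ 20 := by ring
    exact_mod_cast h1
  have hXu : (X : ℝ) ≤ 2 * (y * H ^ 20) := by
    have h1 : (X : ℝ) < y * H ^ 20 + 1 := Nat.ceil_lt_add_one (by positivity)
    have h2 : 1 ≤ y * H ^ 20 := by nlinarith [hpw 20]
    linarith
  have hdens : (X : ℝ) / G c₀ X ≤ (S.card : ℝ) := by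
    refine le_trans ?_ hSc
    rw [div_le_div_iff₀ hGpos (by positivity)]
    calc (X : ℝ) * H ^ 4 ≤ 2 * (y * H ^ 20) * H ^ 4 :=
          mul_le_mul_of_nonneg_right hXu (by positivity)
      _ = y * (2 * H ^ 24) := by ring
      _ ≤ y * H ^ 100 := by
          refine mul_le_mul_of_nonneg_left ?_ hy0.le
          have h1 : H ^ 100 = H ^ 76 * H ^ 24 := by ring
          have h2 : H ≤ H ^ 76 := le_self_pow₀ (by linarith) (by norm_num)
          rw [h1]
          exact mul_le_mul_of_nonneg_right (by linarith) (by positivity)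
      _ ≤ y * G c₀ X := mul_le_mul_of_nonneg_left hGX hy0.le
  obtain ⟨N, hN⟩ := hX₀ X hXX₀ S hSX hdens
  obtain ⟨s, hs1, hs2⟩ := Pool.Agent.Q65.HP.transfer A α β H h x hH0.le S g hinj
    (fun n hn => hBA _ (hgB n hn)) (fun n hn => hBx _ (hgB n hn)) hg N (G c₀ X) hGpos hN
  refine ⟨s, hs1, ?_⟩
  have hf0 : (0 : ℝ) < h.factorial := by exact_mod_cast h.factorial_pos
  have hden : 0 < 2 * h * H + 1 := by positivity
  rw [div_le_iff₀ hden] at hs2
  have h1 : H ^ 100 ≤ h.factorial * (rep A h s : ℝ) * (2 * h * H + 1) := hGX.trans hs2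
  have h2 : H * (h.factorial * (2 * h * H + 1)) ≤ H ^ 100 := by
    have h3 : 2 * h * H + 1 ≤ (2 * h + 1) * H := by
      have : (2 * (h : ℝ) + 1) * H = 2 * h * H + H := by ring
      linarith
    calc H * (h.factorial * (2 * h * H + 1)) ≤ H * (h.factorial * ((2 * h + 1) * H)) :=
          mul_le_mul_of_nonneg_left (mul_le_mul_of_nonneg_left h3 hf0.le) hH0.le
      _ = H * ((2 * h + 1) * h.factorial) * H := by ring
      _ ≤ H * H * H := by
          refine mul_le_mul_of_nonneg_right (mul_le_mul_of_nonneg_left hHf hH0.le) hH0.le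
      _ = H ^ 3 := by ring
      _ ≤ H ^ 100 := pow_le_pow_right₀ (by linarith) (by norm_num)
  have h3 : H * (h.factorial * (2 * h * H + 1)) ≤
      (rep A h s : ℝ) * (h.factorial * (2 * h * H + 1)) := by
    refine (h2.trans h1).trans (le_of_eq ?_)
    ring
  exact le_of_mul_le_mul_right h3 (by positivity)

end Pool.Agent.Q248.HP

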